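import Pool.Agent.Lib.MP_1e8d1a_an.SU.Flow

/-!
A flow `ψ` and a commuting map `e` (`Equiv.Perm W`): the action of `ℝ × ℤ`, its returns and the
clock.
-/

open scoped ContDiff Manifold Topology

namespace Pool.Agent.SC

/-- `p` is nonwandering modulo a stabiliser: for some `(u, n) ≠ (0, 0)`, arbitrarily near `p` there
are points `q` fixed by `ψ_u e^n` which return near `p` under `ψ_s e^j`, for `(s, j)` arbitrarily
far from the line spanned by `(u, n)`. -/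
def StabReturns {W : Type} [TopologicalSpace W] (ψ : ℝ → W → W) (e : Equiv.Perm W) (p : W) :
    Prop :=
  ∃ (u : ℝ) (n : ℤ), (u ≠ 0 ∨ n ≠ 0) ∧ ∀ U ∈ 𝓝 p, ∀ N : ℝ, ∃ (s : ℝ) (j : ℤ),
    N ≤ |u * j - n * s| ∧ ∃ q ∈ U, ψ u ((e ^ n) q) = q ∧ ψ s ((e ^ j) q) ∈ U

section perm

variable {W : Type} {ψ : ℝ → W → W}

/-- the time-`s` map as a permutation -/
def flowPerm (h0 : ∀ q, ψ 0 q = q) (hadd : ∀ u v q, ψ (u + v) q = ψ u (ψ v q)) (s : ℝ) :
    Equiv.Perm W where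
  toFun := ψ s
  invFun := ψ (-s)
  left_inv q := by rw [← hadd, neg_add_cancel, h0]
  right_inv q := by rw [← hadd, add_neg_cancel, h0]

theorem flowPerm_zpow (h0 : ∀ q, ψ 0 q = q) (hadd : ∀ u v q, ψ (u + v) q = ψ u (ψ v q)) (u : ℝ)
    (t : ℤ) : flowPerm h0 hadd (t * u) = flowPerm h0 hadd u ^ t := by
  let A : ℝ →+ Additive (Equiv.Perm W) :=
    { toFun := fun s => Additive.ofMul (flowPerm h0 hadd s)
      map_zero' := by
        apply Additive.toMul.injective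
        ext q
        exact h0 q
      map_add' := fun s t => by
        apply Additive.toMul.injective
        ext q
        exact hadd s t q }
  have h := map_zsmul A t u
  have h2 : A (t • u) = Additive.ofMul (flowPerm h0 hadd (t * u)) := by
    rw [zsmul_eq_mul]
    rfl
  rw [h2] at h
  exact congrArg Additive.toMul h

variable {e : Equiv.Perm W}

theorem act_comm (h0 : ∀ q, ψ 0 q = q) (hadd : ∀ u v q, ψ (u + v) q = ψ u (ψ v q))
    (he : ∀ u q, e (ψ u q) = ψ u (e q)) (s : ℝ) (j : ℤ) (q : W) :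
    (e ^ j) (ψ s q) = ψ s ((e ^ j) q) := by
  have h1 : Commute e (flowPerm h0 hadd s) := by
    ext q
    exact he s q
  have h2 := (h1.zpow_left j)
  exact congrArg (fun f : Equiv.Perm W => f q) h2

/-- the composition law of the action -/
theorem act_add (h0 : ∀ q, ψ 0 q = q) (hadd : ∀ u v q, ψ (u + v) q = ψ u (ψ v q))
    (he : ∀ u q, e (ψ u q) = ψ u (e q)) (s s' : ℝ) (j j' : ℤ) (q : W) :
    ψ (s + s') ((e ^ (j + j')) q) = ψ s ((e ^ j) (ψ s' ((e ^ j') q))) := by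
  rw [act_comm h0 hadd he, hadd, zpow_add, Equiv.Perm.mul_apply]

/-- multiples of a stabiliser element -/
theorem act_fix (h0 : ∀ q, ψ 0 q = q) (hadd : ∀ u v q, ψ (u + v) q = ψ u (ψ v q))
    (he : ∀ u q, e (ψ u q) = ψ u (e q)) {u : ℝ} {n : ℤ} {q : W} (hq : ψ u ((e ^ n) q) = q)
    (t : ℤ) : ψ (t * u) ((e ^ (t * n)) q) = q := by
  have h1 : Commute e (flowPerm h0 hadd u) := by
    ext q
    exact he u q
  have h2 : Commute (flowPerm h0 hadd u) (e ^ n) := (h1.zpow_left n).symm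
  have h3 : (flowPerm h0 hadd u * e ^ n) q = q := hq
  have h4 := Equiv.Perm.zpow_apply_eq_self_of_apply_eq_self h3 t
  rw [h2.mul_zpow, ← flowPerm_zpow, ← zpow_mul, mul_comm n t] at h4
  exact h4

theorem act_translate (h0 : ∀ q, ψ 0 q = q) (hadd : ∀ u v q, ψ (u + v) q = ψ u (ψ v q))
    (he : ∀ u q, e (ψ u q) = ψ u (e q)) {u : ℝ} {n : ℤ} {q : W} (hq : ψ u ((e ^ n) q) = q)
    (s : ℝ) (j t : ℤ) : ψ (s + t * u) ((e ^ (j + t * n)) q) = ψ s ((e ^ j) q) := by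
  rw [act_add h0 hadd he, act_fix h0 hadd he hq]

/-- the set of fixed points of `ψ_u e^n` is invariant under the action -/
theorem act_mem (h0 : ∀ q, ψ 0 q = q) (hadd : ∀ u v q, ψ (u + v) q = ψ u (ψ v q))
    (he : ∀ u q, e (ψ u q) = ψ u (e q)) {u : ℝ} {n : ℤ} {q : W} (hq : ψ u ((e ^ n) q) = q)
    (s : ℝ) (j : ℤ) : ψ u ((e ^ n) (ψ s ((e ^ j) q))) = ψ s ((e ^ j) q) := by
  rw [← act_add h0 hadd he, add_comm u s, add_comm n j, act_add h0 hadd he, hq]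

theorem act_clock {Θ : W → Circle} {σ : ℝ}
    (hΘψ : ∀ u q, Θ (ψ u q) = Circle.exp (2 * Real.pi * u) * Θ q)
    (heΘ : ∀ q, Θ (e q) = Circle.exp (2 * Real.pi * σ) * Θ q) (s : ℝ) (j : ℤ) (q : W) :
    Θ (ψ s ((e ^ j) q)) = Circle.exp (2 * Real.pi * (s + j * σ)) * Θ q := by
  have h1 : ∀ j : ℤ, Θ ((e ^ j) q) = Circle.exp (2 * Real.pi * (j * σ)) * Θ q := by
    intro j
    induction j using Int.induction_on with
    | zero => simp
    | succ i ih =>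
      have h2 : (e ^ ((i : ℤ) + 1)) q = e ((e ^ (i : ℤ)) q) := by
        rw [add_comm, zpow_one_add, Equiv.Perm.mul_apply]
      rw [h2, heΘ, ih, ← mul_assoc, ← Circle.exp_add]
      congr 2
      push_cast
      ring
    | pred i ih =>
      have h2 : e ((e ^ (-(i : ℤ) - 1)) q) = (e ^ (-(i : ℤ))) q := by
        rw [← Equiv.Perm.mul_apply, ← zpow_one_add]
        congr 2
        ring
      rw [← h2, heΘ] at ih
      have h3 : Θ ((e ^ (-(i : ℤ) - 1)) q) = (Circle.exp (2 * Real.pi * σ))⁻¹ *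
          (Circle.exp (2 * Real.pi * (((-(i : ℤ) : ℤ) : ℝ) * σ)) * Θ q) := by
        rw [← ih, inv_mul_cancel_left]
      rw [h3, ← mul_assoc, ← Circle.exp_neg, ← Circle.exp_add]
      congr 2
      push_cast
      ring
  rw [hΘψ, h1, ← mul_assoc, ← Circle.exp_add]
  congr 2
  ring

end perm

section returns

variable {W : Type} [TopologicalSpace W] {ψ : ℝ → W → W} {Θ : W → Circle}

/-- Points near `p` whose clocks differ by `x` turns: `x` is near an integer. -/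
theorem near_int (h0 : ∀ q, ψ 0 q = q)
    (hc : Continuous (fun z : ℝ × W => ψ z.1 z.2)) (hΘ : Continuous Θ) {p : W} {U : Set W}
    (hU : U ∈ 𝓝 p) : ∃ V ∈ 𝓝 p, V ⊆ U ∧ ∀ q ∈ V, ∀ q' ∈ V, ∀ x : ℝ,
      Θ q' = Circle.exp (2 * Real.pi * x) * Θ q → ∃ m : ℤ, |x - m| < 1 / 2 ∧ ψ (m - x) q' ∈ U := by
  have h1 : Filter.Tendsto (fun z : ℝ × W => ψ z.1 z.2) (𝓝 (0, p)) (𝓝 p) := by
    have := hc.tendsto (0, p)
    simpa [h0] using this
  obtain ⟨A, hA, V, hV, hAV⟩ := mem_nhds_prod_iff.1 (h1 hU)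
  obtain ⟨δ, hδ, hδA⟩ := Metric.mem_nhds_iff.1 hA
  have h2 : ContinuousAt (fun z : W × W => Complex.arg ((Θ z.2 * (Θ z.1)⁻¹ : Circle) : ℂ)) (p, p) := by
    refine ContinuousAt.comp (f := fun z : W × W => ((Θ z.2 * (Θ z.1)⁻¹ : Circle) : ℂ))
      (g := Complex.arg) ?_ ?_
    · simp only [mul_inv_cancel, Circle.coe_one]
      exact Complex.continuousAt_arg Complex.one_mem_slitPlane
    · exact (continuous_subtype_val.comp ((hΘ.comp continuous_snd).mul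
        (hΘ.comp continuous_fst).inv)).continuousAt
  have hpi : (0 : ℝ) < 2 * Real.pi := by positivity
  set η : ℝ := min δ (1 / 2) with hη
  have hη0 : 0 < η := lt_min hδ (by norm_num)
  have h3 : ∀ᶠ z in 𝓝 (p, p), |Complex.arg ((Θ z.2 * (Θ z.1)⁻¹ : Circle) : ℂ)| <
      2 * Real.pi * η := by
    have h4 : ContinuousAt (fun z : W × W =>
        |Complex.arg ((Θ z.2 * (Θ z.1)⁻¹ : Circle) : ℂ)|) (p, p) := h2.abs
    refine h4.eventually (gt_mem_nhds ?_)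
    simp only [mul_inv_cancel, Circle.coe_one, Complex.arg_one, abs_zero]
    positivity
  obtain ⟨B, hB, C, hC, hBC⟩ := mem_nhds_prod_iff.1 h3
  refine ⟨(U ∩ V) ∩ (B ∩ C), Filter.inter_mem (Filter.inter_mem hU hV) (Filter.inter_mem hB hC),
    fun q hq => hq.1.1, ?_⟩
  intro q hq q' hq' x hx
  have h5 := hBC (Set.mk_mem_prod hq.2.1 hq'.2.2)
  simp only [Set.mem_ofPred_eq] at h5
  rw [hx, mul_inv_cancel_right] at h5
  set s : ℝ := Complex.arg ((Circle.exp (2 * Real.pi * x) : Circle) : ℂ) / (2 * Real.pi) with hs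
  have h6 : |s| < η := by
    rw [hs, abs_div, abs_of_pos hpi, div_lt_iff₀ hpi]
    linarith
  have h7 : Circle.exp (2 * Real.pi * (x - s)) = 1 := by
    have e1 : 2 * Real.pi * (x - s) = 2 * Real.pi * x -
        Complex.arg ((Circle.exp (2 * Real.pi * x) : Circle) : ℂ) := by
      rw [hs]
      field_simp
    rw [e1, Circle.exp_sub, Circle.exp_arg, div_self']
  obtain ⟨n, hn⟩ := Circle.exp_eq_one.1 h7
  have h8 : x - s = n := by
    have h9 : 2 * Real.pi * (x - s) = 2 * Real.pi * n := by rw [hn]; ring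
    exact mul_left_cancel₀ hpi.ne' h9
  refine ⟨n, ?_, ?_⟩
  · rw [← h8, sub_sub_cancel]
    exact lt_of_lt_of_le h6 (min_le_right _ _)
  · have h10 : (n : ℝ) - x = -s := by rw [← h8]; ring
    rw [h10]
    refine hAV (a := (-s, q')) (Set.mk_mem_prod (hδA ?_) hq'.1.2)
    rw [Metric.mem_ball, dist_zero_right, norm_neg, Real.norm_eq_abs]
    exact lt_of_lt_of_le h6 (min_le_left _ _)

variable {e : Equiv.Perm W} {σ : ℝ}

/-- Returns under the elements `(m - j σ, j)` which fix the clock. -/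
theorem int_returns (h0 : ∀ q, ψ 0 q = q) (hadd : ∀ u v q, ψ (u + v) q = ψ u (ψ v q))
    (hc : Continuous (fun z : ℝ × W => ψ z.1 z.2)) (hΘ : Continuous Θ)
    (hΘψ : ∀ u q, Θ (ψ u q) = Circle.exp (2 * Real.pi * u) * Θ q)
    (heΘ : ∀ q, Θ (e q) = Circle.exp (2 * Real.pi * σ) * Θ q) {p : W} {u : ℝ} {n m₀ : ℤ}
    (hm₀ : (m₀ : ℝ) = u + n * σ)
    (hp : ∀ U ∈ 𝓝 p, ∀ N : ℝ, ∃ (s : ℝ) (j : ℤ),
      N ≤ |u * j - n * s| ∧ ∃ q ∈ U, ψ u ((e ^ n) q) = q ∧ ψ s ((e ^ j) q) ∈ U)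
    (U : Set W) (hU : U ∈ 𝓝 p) (N : ℝ) : ∃ m j : ℤ, N ≤ |(m₀ : ℝ) * j - n * m| ∧
      ∃ q ∈ U, ψ u ((e ^ n) q) = q ∧ ψ (m - j * σ) ((e ^ j) q) ∈ U := by
  obtain ⟨V, hV, hVU, hVi⟩ := near_int h0 hc hΘ hU
  obtain ⟨s, j, hN, q, hq, hqZ, hq'⟩ := hp V hV (N + |(n : ℝ)|)
  obtain ⟨m, hm, hmU⟩ := hVi q hq _ hq' (s + j * σ) (act_clock hΘψ heΘ s j q)
  refine ⟨m, j, ?_, q, hVU hq, hqZ, ?_⟩
  · have e1 : (m₀ : ℝ) * j - n * m = (u * j - n * s) + n * (s + j * σ - m) := by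
      rw [hm₀]
      ring
    have h1 : |(n : ℝ) * (s + j * σ - m)| ≤ |(n : ℝ)| := by
      rw [abs_mul]
      have := abs_nonneg (n : ℝ)
      nlinarith
    have h2 : |u * j - n * s| ≤ |(m₀ : ℝ) * j - n * m| + |(n : ℝ) * (s + j * σ - m)| := by
      rw [e1]
      have := abs_sub (u * j - n * s + n * (s + j * σ - m)) (n * (s + j * σ - m))
      rwa [add_sub_cancel_right] at this
    linarith
  · rw [← hadd] at hmU
    have e2 : (m : ℝ) - (s + j * σ) + s = m - j * σ := by ring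
    rwa [e2] at hmU

/-- the same with a prescribed sign -/
theorem int_returns_sign (h0 : ∀ q, ψ 0 q = q) (hadd : ∀ u v q, ψ (u + v) q = ψ u (ψ v q))
    (he : ∀ u q, e (ψ u q) = ψ u (e q)) {p : W} {u : ℝ} {n m₀ : ℤ}
    (hp : ∀ U ∈ 𝓝 p, ∀ N : ℝ, ∃ m j : ℤ, N ≤ |(m₀ : ℝ) * j - n * m| ∧
      ∃ q ∈ U, ψ u ((e ^ n) q) = q ∧ ψ (m - j * σ) ((e ^ j) q) ∈ U) (D : ℤ) (hD : D ≠ 0)
    (U : Set W) (hU : U ∈ 𝓝 p) (N : ℤ) : ∃ m j : ℤ, N ≤ D * (m₀ * j - n * m) ∧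
      ∃ q ∈ U, ψ u ((e ^ n) q) = q ∧ ψ (m - j * σ) ((e ^ j) q) ∈ U := by
  obtain ⟨m, j, hN, q, hq, hqZ, hq'⟩ := hp U hU N
  have h1 : N ≤ |m₀ * j - n * m| := by exact_mod_cast hN
  have h2 : N ≤ |D * (m₀ * j - n * m)| := by
    rw [abs_mul]
    have h3 : 1 ≤ |D| := Int.one_le_abs hD
    have h4 := abs_nonneg (m₀ * j - n * m)
    nlinarith
  rcases abs_cases (D * (m₀ * j - n * m)) with h3 | h3
  · rw [h3.1] at h2
    exact ⟨m, j, h2, q, hq, hqZ, hq'⟩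
  · rw [h3.1] at h2
    refine ⟨-m, -j, ?_, _, hq', act_mem h0 hadd he hqZ _ _, ?_⟩
    · have e1 : D * (m₀ * -j - n * -m) = -(D * (m₀ * j - n * m)) := by ring
      rw [e1]
      exact h2
    · rw [← act_add h0 hadd he]
      have e2 : (((-m : ℤ) : ℝ) - ((-j : ℤ) : ℝ) * σ + (m - j * σ)) = 0 := by
        push_cast
        ring
      rw [e2, h0, neg_add_cancel, zpow_zero]
      exact hq

/-- Returns adapted to the rational direction `P / Q`: the number of turns `Q m - n' P` is positive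
and bounded. -/
theorem act_returns (h0 : ∀ q, ψ 0 q = q) (hadd : ∀ u v q, ψ (u + v) q = ψ u (ψ v q))
    (he : ∀ u q, e (ψ u q) = ψ u (e q)) {p : W} {u : ℝ} {n m₀ : ℤ}
    (hm₀ : (m₀ : ℝ) = u + n * σ) (P : ℤ) (Q : ℕ) (hQ : 0 < Q) (hD : (Q : ℤ) * m₀ - n * P ≠ 0)
    (hp : ∀ U ∈ 𝓝 p, ∀ N : ℝ, ∃ m j : ℤ, N ≤ |(m₀ : ℝ) * j - n * m| ∧
      ∃ q ∈ U, ψ u ((e ^ n) q) = q ∧ ψ (m - j * σ) ((e ^ j) q) ∈ U)
    (U : Set W) (hU : U ∈ 𝓝 p) (N : ℕ) : ∃ k ∈ Finset.Icc 1 ((Q : ℤ) * m₀ - n * P).natAbs,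
      ∃ n' : ℕ, N ≤ n' ∧ ∃ m : ℤ, Q * m - n' * P = k ∧
        ∃ q ∈ U, ψ u ((e ^ n) q) = q ∧ ψ (m - n' * σ) ((e ^ n') q) ∈ U := by
  set D : ℤ := (Q : ℤ) * m₀ - n * P with hDd
  have hD2 : 0 < D ^ 2 := by positivity
  obtain ⟨m, j, hN, q, hq, hqZ, hq'⟩ := int_returns_sign h0 hadd he hp D hD U hU ((N + |n|) * D ^ 2)
  -- translate by `t`
  set t : ℤ := -((Q * m - j * P - 1) / D) with ht
  set k : ℤ := 1 + (Q * m - j * P - 1) % D with hk
  have hk1 : 1 ≤ k := by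
    have := Int.emod_nonneg (Q * m - j * P - 1) hD
    omega
  have hk2 : k ≤ |D| := by
    have := Int.emod_lt_abs (Q * m - j * P - 1) hD
    omega
  have hkt : (Q : ℤ) * (m + t * m₀) - (j + t * n) * P = k := by
    have h1 := Int.emod_add_mul_ediv (Q * m - j * P - 1) D
    have e1 : (Q : ℤ) * (m + t * m₀) - (j + t * n) * P = Q * m - j * P + t * D := by
      rw [hDd]
      ring
    rw [e1, ht, hk]
    linarith
  have hn' : (j + t * n) * D = Q * (m₀ * j - n * m) + n * k := by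
    rw [← hkt, hDd]
    ring
  have hn2 : ((N : ℤ)) ≤ j + t * n := by
    have h1 : (j + t * n) * D ^ 2 = Q * (D * (m₀ * j - n * m)) + D * n * k := by
      calc (j + t * n) * D ^ 2 = D * ((j + t * n) * D) := by ring
        _ = D * (Q * (m₀ * j - n * m) + n * k) := by rw [hn']
        _ = _ := by ring
    have h2 : -(|n| * D ^ 2) ≤ D * n * k := by
      have h3 : |D * n * k| ≤ |n| * D ^ 2 := by
        rw [abs_mul, abs_mul, abs_of_pos (by omega : 0 < k), ← sq_abs D]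
        have h4 := abs_nonneg D
        have h5 := abs_nonneg n
        have h6 : |D| * |n| * k ≤ |D| * |n| * |D| :=
          mul_le_mul_of_nonneg_left hk2 (mul_nonneg h4 h5)
        calc |D| * |n| * k ≤ |D| * |n| * |D| := h6
          _ = |n| * |D| ^ 2 := by ring
      exact (abs_le.1 h3).1
    have h3 : ((N : ℤ) + |n|) * D ^ 2 ≤ Q * (D * (m₀ * j - n * m)) := by
      have hQ1 : (1 : ℤ) ≤ Q := by exact_mod_cast hQ
      have h4 : 0 ≤ ((N : ℤ) + |n|) * D ^ 2 := by positivity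
      have h5 : 0 ≤ D * (m₀ * j - n * m) := h4.trans hN
      calc ((N : ℤ) + |n|) * D ^ 2 ≤ D * (m₀ * j - n * m) := hN
        _ = 1 * (D * (m₀ * j - n * m)) := by ring
        _ ≤ Q * (D * (m₀ * j - n * m)) := mul_le_mul_of_nonneg_right hQ1 h5
    have h4 : (N : ℤ) * D ^ 2 ≤ (j + t * n) * D ^ 2 := by
      rw [h1]
      linarith
    exact le_of_mul_le_mul_right h4 hD2
  obtain ⟨n', hn3⟩ := Int.eq_ofNat_of_zero_le (le_trans (Int.natCast_nonneg N) hn2)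
  obtain ⟨k', hk'⟩ := Int.eq_ofNat_of_zero_le (by omega : 0 ≤ k)
  refine ⟨k', ?_, n', ?_, m + t * m₀, ?_, q, hq, hqZ, ?_⟩
  · rw [Finset.mem_Icc]
    constructor
    · omega
    · rw [hk', ← Int.natCast_natAbs] at hk2
      exact_mod_cast hk2
  · rw [hn3] at hn2
    exact_mod_cast hn2
  · rw [← hk', ← hn3]
    exact hkt
  · have h1 := act_translate h0 hadd he hqZ (m - j * σ) j t
    rw [← h1] at hq'
    have h2 : (e ^ n') = e ^ (j + t * n) := by rw [hn3]; rfl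
    have h3 : ((n' : ℕ) : ℝ) = ((j + t * n : ℤ) : ℝ) := by rw [hn3]; simp
    rw [h2, h3]
    have e1 : (((m + t * m₀ : ℤ) : ℝ) - ((j + t * n : ℤ) : ℝ) * σ) = m - j * σ + t * u := by
      push_cast
      rw [hm₀]
      ring
    rw [e1]
    exact hq'

/-- pigeonhole for neighbourhoods -/
theorem nhds_pigeon {p : W} {ι : Type} (S : Finset ι) (R : ι → Set W → ℕ → Prop)
    (hR : ∀ i U U' N N', R i U N → U ⊆ U' → N' ≤ N → R i U' N')
    (h : ∀ U ∈ 𝓝 p, ∀ N, ∃ i ∈ S, R i U N) : ∃ i ∈ S, ∀ U ∈ 𝓝 p, ∀ N, R i U N := by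
  by_contra hcon
  push Not at hcon
  have hcon' : ∀ i, ∃ U ∈ 𝓝 p, ∃ N, i ∈ S → ¬ R i U N := by
    intro i
    by_cases hi : i ∈ S
    · obtain ⟨U, hU, N, hN⟩ := hcon i hi
      exact ⟨U, hU, N, fun _ => hN⟩
    · exact ⟨Set.univ, Filter.univ_mem, 0, fun h => absurd h hi⟩
  choose U hU N hN using hcon'
  obtain ⟨i, hi, hR'⟩ := h (⋂ i ∈ S, U i) ((Filter.biInter_finset_mem S).2 fun i _ => hU i) (S.sup N)
  exact hN i hi (hR i _ _ _ _ hR' (fun q hq => Set.mem_iInter₂.1 hq i hi) (Finset.le_sup (f := N) hi))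

end returns

end Pool.Agent.SC
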