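import Pool.Agent.Lib.MP_1e8d1a_an.SU.Defs
import Pool.Agent.Lib.MP_1e8d1a_an.SC.RotD

/-! Examples of clock points. -/

open scoped ContDiff Manifold Topology

namespace Pool.Agent.SC

variable {E : Type} [NormedAddCommGroup E] [NormedSpace ℝ E] [FiniteDimensional ℝ E]
  {H : Type} [TopologicalSpace H] {I : ModelWithCorners ℝ E H} [I.Boundaryless]
  {W : Type} [TopologicalSpace W] [T2Space W] [CompactSpace W] [ChartedSpace H W]
  [IsManifold I ∞ W]

omit [FiniteDimensional ℝ E] [I.Boundaryless] [T2Space W] [CompactSpace W] [IsManifold I ∞ W] in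
/-- The time-`τ` map of a flow with a clock (suspension flow), at a point which is nonwandering for
the flow. -/
theorem clockPoint_time {r : ℕ∞} {ψ : ℝ → W → W} {Θ : W → Circle} (hψ : IsFlow I r ψ)
    (hΘ : IsClock I r ψ Θ) (τ : ℝ) (F : W ≃ₘ^r⟮I, I⟯ W) (hF : ∀ q, F q = ψ τ q) (p : W)
    (hp : ∀ U ∈ 𝓝 p, ∀ T₀ : ℝ, ∃ T ≥ T₀, ∃ q ∈ U, ψ T q ∈ U) : ClockPoint I r F p := by
  refine ⟨ψ, Θ, Circle.exp (2 * Real.pi * τ), hψ, hΘ, ?_, ?_, ?_⟩
  · intro u q
    rw [hF, hF, ← hψ.2.1, ← hψ.2.1, add_comm]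
  · intro q
    rw [hF, hΘ.2]
  · refine ⟨-τ, 1, Or.inr one_ne_zero, fun U hU N => ?_⟩
    obtain ⟨T, hT, q, hq, hq'⟩ := hp U hU N
    refine ⟨T, 0, ?_, q, hq, ?_, ?_⟩
    · rw [Int.cast_zero, mul_zero, Int.cast_one, one_mul, zero_sub, abs_neg]
      exact hT.le.trans (le_abs_self T)
    · rw [zpow_one]
      change ψ (-τ) (F q) = q
      rw [hF, ← hψ.2.1, neg_add_cancel, hψ.1]
    · rw [zpow_zero]
      exact hq'

omit [FiniteDimensional ℝ E] [I.Boundaryless] [CompactSpace W] [IsManifold I ∞ W] in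
/-- A recurrent point of `F` on a closed orbit of `ψ` (more generally with a nontrivial stabiliser). -/
theorem clockPoint_stabiliser {r : ℕ∞} {ψ : ℝ → W → W} {Θ : W → Circle} (hψ : IsFlow I r ψ)
    (hΘ : IsClock I r ψ Θ) (F : W ≃ₘ^r⟮I, I⟯ W) (hFψ : ∀ u q, F (ψ u q) = ψ u (F q)) (ζ : Circle)
    (hFΘ : ∀ q, Θ (F q) = ζ * Θ q) (p : W) (u : ℝ) (n : ℤ) (hu : u ≠ 0)
    (hp : ψ u ((F.toEquiv ^ n) p) = p) (h : Recurrent F.toEquiv p) : ClockPoint I r F p := by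
  refine ⟨ψ, Θ, ζ, hψ, hΘ, hFψ, hFΘ, u, n, Or.inl hu, fun U hU N => ?_⟩
  have hinf := rec_infinite F.toHomeomorph p h U hU
  obtain ⟨K, hK⟩ := exists_nat_ge (N / |u|)
  have h1 : ∃ j : ℤ, (F.toEquiv ^ j) p ∈ U ∧ (K : ℤ) ≤ |j| := by
    by_contra hcon
    push Not at hcon
    refine hinf ((Set.finite_Ioo (-(K : ℤ)) K).subset fun j hj => ?_)
    exact abs_lt.1 (hcon j hj)
  obtain ⟨j, hjU, hjK⟩ := h1
  refine ⟨0, j, ?_, p, mem_of_mem_nhds hU, hp, ?_⟩
  · rw [mul_zero, sub_zero, abs_mul]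
    have hu' : (0 : ℝ) < |u| := abs_pos.2 hu
    rw [div_le_iff₀ hu'] at hK
    have h2 : (K : ℝ) ≤ |(j : ℝ)| := by exact_mod_cast hjK
    calc N ≤ K * |u| := hK
      _ ≤ |(j : ℝ)| * |u| := mul_le_mul_of_nonneg_right h2 hu'.le
      _ = |u| * |(j : ℝ)| := mul_comm _ _
  · rw [hψ.1]
    exact hjU

omit [IsManifold I ∞ W] [CompactSpace W] [FiniteDimensional ℝ E] [I.Boundaryless] in
/-- The product of any diffeomorphism with a rotation of the circle. -/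
theorem clockPoint_rot {r : ℕ∞} (f : W ≃ₘ^r⟮I, I⟯ W) (x : W) (hx : NonwanderingPt f x)
    (w : Circle) (α : ℝ) (F : (W × Circle) ≃ₘ^r⟮I.prod (𝓡 1), I.prod (𝓡 1)⟯ (W × Circle))
    (hF : ∀ y z, F (y, z) = (f y, Circle.exp α * z)) :
    ClockPoint (I.prod (𝓡 1)) r F (x, w) := by
  refine ⟨fun u q => (q.1, Circle.exp (2 * Real.pi * u) * q.2), fun q => q.2, Circle.exp α,
    ⟨?_, ?_, ?_⟩, ⟨contMDiff_snd, ?_⟩, ?_, ?_, 1, 0, Or.inl one_ne_zero, ?_⟩
  · intro q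
    simp
  · intro u v q
    simp only
    rw [← mul_assoc, ← Circle.exp_add]
    congr 3
    ring
  · refine ContMDiff.prodMk (contMDiff_fst.comp contMDiff_snd) ?_
    refine ContMDiff.mul ?_ (contMDiff_snd.comp contMDiff_snd)
    refine contMDiff_circleExp.comp ?_
    have h1 : ContDiff ℝ r (fun u : ℝ => 2 * Real.pi * u) := by fun_prop
    exact h1.contMDiff.comp contMDiff_fst
  · intro u q
    rfl
  · rintro u ⟨y, z⟩
    rw [hF, hF]
    simp only
    rw [mul_left_comm]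
  · rintro ⟨y, z⟩
    rw [hF]
  · intro U hU N
    obtain ⟨A, hA, B, hB, hAB⟩ := mem_nhds_prod_iff.1 hU
    obtain ⟨K, hK⟩ := exists_nat_ge N
    obtain ⟨j, hj, -, y, hy, hjy⟩ := nw_large f.continuous hx K A hA
    refine ⟨-(j * α) / (2 * Real.pi), j, ?_, (y, w), hAB ⟨hy, mem_of_mem_nhds hB⟩, ?_, ?_⟩
    · rw [Int.cast_zero, zero_mul, sub_zero, one_mul]
      have h1 : (K : ℝ) ≤ j := by exact_mod_cast hj
      rw [Int.cast_natCast, abs_of_nonneg (Nat.cast_nonneg j)]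
      linarith
    · rw [zpow_zero]
      change (y, Circle.exp (2 * Real.pi * 1) * w) = (y, w)
      rw [mul_one, Circle.exp_two_pi, one_mul]
    · have h1 : (F.toEquiv ^ (j : ℤ)) (y, w) = (F : W × Circle → W × Circle)^[j] (y, w) := by
        rw [zpow_natCast]
        exact rec_pow_eq F.toHomeomorph j (y, w)
      rw [h1, RotA_iterate (f : W → W) F _ hF, ← Circle.exp_natCast_mul]
      simp only
      rw [← mul_assoc, ← Circle.exp_add]
      have e1 : 2 * Real.pi * (-(j * α) / (2 * Real.pi)) + (j : ℝ) * α = 0 := by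
        field_simp
        ring
      rw [e1, Circle.exp_zero, one_mul]
      exact hAB ⟨hjy, mem_of_mem_nhds hB⟩

end Pool.Agent.SC
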