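import Pool.Agent.Lib.MP_1e8d1a_an.SC.Defs3
import Pool.Agent.Lib.MP_1e8d1a_an.SU.Act

/-! Definitions used in the statement of the final theorem. -/

open scoped ContDiff Manifold Topology

namespace Pool.Agent.SC

/-- `F` commutes with a `C^r` flow `ψ` which has a clock `Θ`, `F` rotates the clock, and `p` is
nonwandering modulo a stabiliser for the action of `ℝ × ℤ` generated by `ψ` and `F`. -/
def ClockPoint {E : Type} [NormedAddCommGroup E] [NormedSpace ℝ E] {H : Type} [TopologicalSpace H]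
    (I : ModelWithCorners ℝ E H) {W : Type} [TopologicalSpace W] [ChartedSpace H W] (r : ℕ∞)
    (F : W ≃ₘ^r⟮I, I⟯ W) (p : W) : Prop :=
  ∃ (ψ : ℝ → W → W) (Θ : W → Circle) (ζ : Circle), IsFlow I r ψ ∧ IsClock I r ψ Θ ∧
    (∀ u q, F (ψ u q) = ψ u (F q)) ∧ (∀ q, Θ (F q) = ζ * Θ q) ∧ StabReturns ψ F.toEquiv p

end Pool.Agent.SC
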