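import Pool.Agent.Lib.MP_1e8d1a_an.SC.ClkF
import Pool.Agent.Lib.MP_1e8d1a_an.SB.Fc

/-!
The closing lemma with a clock in the form `FC`, for returns inside an invariant set `Z` (proofs as
in `SC/ClkE`, `SC/ClkF`).
-/

open scoped ContDiff Manifold Topology

namespace Pool.Agent.SC

variable {E : Type} [NormedAddCommGroup E] [NormedSpace ℝ E] {H : Type} [TopologicalSpace H]
  {I : ModelWithCorners ℝ E H} {W : Type} [TopologicalSpace W] [ChartedSpace H W]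

/-- points of `Z` near `p` return under `F^n ψ_k` for arbitrarily large `n`, and the intermediate
pairs `(i, l)` proportional to `(n, k)` do not bring a point of `Z ∩ U₀` back to `U₀`. -/
def ClockReturnsOn (Z : Set W) (F : W → W) (ψ : ℝ → W → W) (p : W) (k : ℕ) : Prop :=
  0 < k ∧ ∃ U₀ ∈ 𝓝 p, ∀ U ∈ 𝓝 p, ∀ N : ℕ, ∃ n : ℕ, N ≤ n ∧ 0 < n ∧
    (∃ q ∈ U, q ∈ Z ∧ F^[n] (ψ k q) ∈ U) ∧
    ∀ i l : ℕ, 0 < i → i < n → 0 < l → l < k → i * k = l * n →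
      ∀ q ∈ U₀, q ∈ Z → F^[i] (ψ l q) ∉ U₀

theorem fc_parabolic_on [FiniteDimensional ℝ E] [T2Space W] [CompactSpace W]
    [IsManifold I ∞ W] [I.Boundaryless] {r : ℕ∞} (F : W ≃ₘ^r⟮I, I⟯ W) (ψ : ℝ → W → W)
    (Θ : W → Circle) (hψ0 : ∀ q, ψ 0 q = q) (hψ : ∀ u v q, ψ (u + v) q = ψ u (ψ v q))
    (hψC : ContMDiff (𝓘(ℝ, ℝ).prod I) I r (fun z : ℝ × W => ψ z.1 z.2))
    (hΘ : ContMDiff I (𝓡 1) r Θ)
    (hΘψ : ∀ u q, Θ (ψ u q) = Circle.exp (2 * Real.pi * u) * Θ q)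
    (hFψ : ∀ u q, F (ψ u q) = ψ u (F q)) (hΘF : ∀ q, Θ (F q) = Θ q)
    (Z : Set W) (hZ : ∀ u, ∀ q ∈ Z, ψ u q ∈ Z)
    (p : W) (hp : Θ p = 1) (k : ℕ) (hk : ClockReturnsOn Z F ψ p k)
    (s : ℝ) (hs : 0 < s) (hs1 : s ≤ 1 / 2) (G₀ : W ≃ₘ^r⟮I, I⟯ W)
    (hG₀ : ∀ q, G₀ q = F (clk ψ Θ 1 s s q)) : FC I p G₀ := by
  obtain ⟨hk0, U₀, hU₀, hret⟩ := hk
  have hkr : (0 : ℝ) < k := by exact_mod_cast hk0
  have hπ := Real.pi_pos
  have hcoe : Continuous fun z : Circle => (z : ℂ) := continuous_subtype_val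
  refine fc_of_family (P := ℝ) (fun z : ℝ × W =>
      F (clk ψ Θ (Real.cos z.1) s (Real.sqrt (s ^ 2 - Real.sin z.1 ^ 2)) z.2))
    (fun q => (contMDiffAt_families F ψ Θ hψC hΘ q).1 s hs hs1) G₀ ?_ p
    (U₀ ∩ {q | ‖((Θ q : Circle) : ℂ) - 1‖ < s / k}) ?_ ?_
  · intro q
    simp only [Real.cos_zero, Real.sin_zero]
    rw [hG₀, show s ^ 2 - (0 : ℝ) ^ 2 = s ^ 2 by ring, Real.sqrt_sq hs.le]
  · refine Filter.inter_mem hU₀ ?_
    have hc : Continuous fun q => ‖((Θ q : Circle) : ℂ) - 1‖ :=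
      ((hcoe.comp hΘ.continuous).sub continuous_const).norm
    refine (isOpen_lt hc continuous_const).mem_nhds ?_
    show ‖((Θ p : Circle) : ℂ) - 1‖ < s / k
    rw [hp, Circle.coe_one, sub_self, norm_zero]
    positivity
  intro U hU ε hε
  -- neighbourhoods
  have hψc : Continuous fun z : ℝ × W => ψ z.1 z.2 := hψC.continuous
  have hmem : (fun z : ℝ × W => ψ z.1 z.2) ⁻¹' (U ∩ U₀) ∈ 𝓝 ((0 : ℝ), p) := by
    apply hψc.continuousAt
    simp only [hψ0]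
    exact Filter.inter_mem hU hU₀
  rw [nhds_prod_eq, Filter.mem_prod_iff] at hmem
  obtain ⟨T, hT, U₁, hU₁, hTU⟩ := hmem
  obtain ⟨u₀, hu₀, hball⟩ := Metric.mem_nhds_iff.1 hT
  have hin : ∀ u : ℝ, |u| < u₀ → ∀ q ∈ U₁, ψ u q ∈ U ∩ U₀ := by
    intro u hu q hq
    have h1 : (u, q) ∈ T ×ˢ U₁ := ⟨hball (by simpa using hu), hq⟩
    exact hTU h1
  have harg : ContinuousAt (fun q => Complex.arg ((Θ q : Circle) : ℂ) / (2 * Real.pi)) p := by
    have h1 : ContinuousAt Complex.arg ((Θ p : Circle) : ℂ) := by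
      apply Complex.continuousAt_arg
      rw [hp]
      simp
    have h2 : ContinuousAt (fun q => ((Θ q : Circle) : ℂ)) p :=
      (hcoe.comp hΘ.continuous).continuousAt
    exact (ContinuousAt.comp (f := fun q => ((Θ q : Circle) : ℂ)) h1 h2).div_const _
  have hU₂ : U₁ ∩ {q | |Complex.arg ((Θ q : Circle) : ℂ) / (2 * Real.pi)| < u₀} ∈ 𝓝 p := by
    refine Filter.inter_mem hU₁ ?_
    have h1 : Filter.Tendsto (fun q => |Complex.arg ((Θ q : Circle) : ℂ) / (2 * Real.pi)|) (𝓝 p)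
        (𝓝 0) := by
      have h3 : |Complex.arg ((Θ p : Circle) : ℂ) / (2 * Real.pi)| = 0 := by
        rw [hp]; simp
      have h2 : Filter.Tendsto (fun q => |Complex.arg ((Θ q : Circle) : ℂ) / (2 * Real.pi)|) (𝓝 p)
        (𝓝 |Complex.arg ((Θ p : Circle) : ℂ) / (2 * Real.pi)|) := harg.abs
      rw [h3] at h2
      exact h2
    exact h1 (Iio_mem_nhds hu₀)
  -- the integer N
  have hμ : 0 < min ε (min (Real.pi / 2) s) := by positivity
  obtain ⟨N, hN⟩ := exists_nat_gt (Real.pi * k / min ε (min (Real.pi / 2) s))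
  obtain ⟨n, hNn, hn0, ⟨q₁, hq₁, hq₁Z, hz₁⟩, hno⟩ := hret _ hU₂ N
  have hnr : (0 : ℝ) < n := by exact_mod_cast hn0
  set om : ℝ := Real.pi * k / n with hom
  have hom0 : 0 < om := by positivity
  have homn : om * n = Real.pi * k := by rw [hom]; field_simp
  have homμ : om < min ε (min (Real.pi / 2) s) := by
    have h1 : Real.pi * k / min ε (min (Real.pi / 2) s) < n :=
      lt_of_lt_of_le hN (by exact_mod_cast hNn)
    rw [div_lt_iff₀ hμ] at h1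
    rw [hom, div_lt_iff₀ hnr]
    linarith
  have homε : om < ε := lt_of_lt_of_le homμ (min_le_left _ _)
  have homπ : om < Real.pi / 2 :=
    lt_of_lt_of_le homμ ((min_le_right _ _).trans (min_le_left _ _))
  have homs : om < s := lt_of_lt_of_le homμ ((min_le_right _ _).trans (min_le_right _ _))
  have hsin : Real.sin om < s := (Real.sin_lt hom0).trans homs
  obtain ⟨hp1, hp2, lam, hlam, h1, h2, h3⟩ := params hs hs1 hom0 homπ hsin
  obtain ⟨G, hG⟩ := exists_clk_diffeo F ψ Θ hψ0 hψ hψC hΘ hΘψ hp1 hp2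
  -- the point
  set u : ℝ := Complex.arg ((Θ q₁ : Circle) : ℂ) / (2 * Real.pi) with hu
  have hcomm : ∀ (v : ℝ) (m : ℕ) (q : W), (F : W → W)^[m] (ψ v q) = ψ v ((F : W → W)^[m] q) := by
    intro v m q
    have hc : Function.Commute (F : W → W) (ψ v) := fun q => hFψ v q
    exact (hc.iterate_left m) q
  have hΘq : Θ (ψ (-u) q₁) = 1 := by
    have h4 : 2 * Real.pi * -u = - Complex.arg ((Θ q₁ : Circle) : ℂ) := by
      rw [hu]; field_simp
    rw [hΘψ, h4, Circle.exp_neg, Circle.exp_arg]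
    simp
  have huabs : |-u| < u₀ := by rw [abs_neg]; exact hq₁.2
  have hqU : ψ (-u) q₁ ∈ U ∩ U₀ := hin _ huabs q₁ hq₁.1
  have hit := iterate_clk (F : W → W) ψ Θ hψ0 hψ hΘψ hFψ hΘF hlam hom0 homπ h1 h2 hp2
    (G : W → W) hG (ψ (-u) q₁) hΘq
  refine ⟨om, by rw [Real.norm_eq_abs, abs_of_pos hom0]; exact homε, G, hG, ψ (-u) q₁, hqU.1, n,
    hn0, ?_, ?_⟩
  · rw [(hit n).1]
    have h5 : Ph lam (n * om) / Real.pi = (k : ℝ) := by
      rw [show (n : ℝ) * om = k * Real.pi by linarith, Ph_nat_mul_pi]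
      field_simp
    rw [h5, ← hψ, add_comm, hψ, hcomm]
    exact (hin _ huabs _ hz₁.1).1
  · intro i hi0 hin' hJ
    have hir : (0 : ℝ) < i := by exact_mod_cast hi0
    by_cases hd : n ∣ i * k
    · obtain ⟨l, hl⟩ := hd
      have hl0 : 0 < l := by
        rcases Nat.eq_zero_or_pos l with h | h
        · rw [h, mul_zero] at hl
          have : 0 < i * k := Nat.mul_pos hi0 hk0
          omega
        · exact h
      have hlk : l < k := by
        have h6 : n * l < n * k := by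
          rw [← hl]
          exact Nat.mul_lt_mul_of_pos_right hin' hk0
        exact Nat.lt_of_mul_lt_mul_left h6
      have h7 : (i : ℝ) * om = l * Real.pi := by
        have h8 : (i : ℝ) * k = n * l := by exact_mod_cast hl
        rw [hom]
        field_simp
        linarith
      have h9 := hno i l hi0 hin' hl0 hlk (by rw [hl, mul_comm]) (ψ (-u) q₁) hqU.2 (hZ _ _ hq₁Z)
      apply h9
      have h10 := (hit i).1
      rw [h7, Ph_nat_mul_pi, mul_div_cancel_right₀ _ hπ.ne'] at h10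
      rw [← h10]
      exact hJ.1
    · have h11 := pt_sep (lam := lam) (s := s) (om := om) (k := k) (n := n) (j := i) hk0 hn0 homn
        homπ hs (by linarith) h3 hd
      have h12 : ‖((Θ ((G : W → W)^[i] (ψ (-u) q₁)) : Circle) : ℂ) - 1‖ < s / k := hJ.2
      rw [(hit i).2] at h12
      linarith

/-- the case `Θ p = 1`. -/
private lemma FcOn_one [FiniteDimensional ℝ E] [T2Space W] [CompactSpace W]
    [IsManifold I ∞ W] [I.Boundaryless] {r : ℕ∞} (F : W ≃ₘ^r⟮I, I⟯ W) (ψ : ℝ → W → W)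
    (Θ : W → Circle) (hψ0 : ∀ q, ψ 0 q = q) (hψ : ∀ u v q, ψ (u + v) q = ψ u (ψ v q))
    (hψC : ContMDiff (𝓘(ℝ, ℝ).prod I) I r (fun z : ℝ × W => ψ z.1 z.2))
    (hΘ : ContMDiff I (𝓡 1) r Θ)
    (hΘψ : ∀ u q, Θ (ψ u q) = Circle.exp (2 * Real.pi * u) * Θ q)
    (hFψ : ∀ u q, F (ψ u q) = ψ u (F q)) (hΘF : ∀ q, Θ (F q) = Θ q)
    (Z : Set W) (hZ : ∀ u, ∀ q ∈ Z, ψ u q ∈ Z)
    (p : W) (hp : Θ p = 1) (k : ℕ) (hk : ClockReturnsOn Z F ψ p k) : FC I p F := by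
  refine fc_of_limit (P := ℝ) (fun z : ℝ × W => F (clk ψ Θ 1 z.1 z.1 z.2))
    (fun q => (contMDiffAt_families F ψ Θ hψC hΘ q).2) F ?_ p ?_
  · intro q
    simp [clk, tau, hψ0]
  · intro ε hε
    have hs0 : 0 < min (ε / 2) (1 / 2) := lt_min (by positivity) (by norm_num)
    have hs1 : min (ε / 2) (1 / 2 : ℝ) ≤ 1 / 2 := min_le_right _ _
    have hs2 : min (ε / 2) (1 / 2 : ℝ) ≤ ε / 2 := min_le_left _ _
    obtain ⟨G, hG⟩ := exists_clk_diffeo F ψ Θ hψ0 hψ hψC hΘ hΘψ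
      (a := 1) (s := min (ε / 2) (1 / 2)) (b := min (ε / 2) (1 / 2)) (by ring)
      (by rw [abs_of_pos hs0]; linarith)
    refine ⟨min (ε / 2) (1 / 2), ?_, G, hG, ?_⟩
    · rw [Real.norm_eq_abs, abs_of_pos hs0]; linarith
    · exact fc_parabolic_on F ψ Θ hψ0 hψ hψC hΘ hΘψ hFψ hΘF Z hZ p hp k hk _ hs0 hs1 G hG

/-- The closing lemma with a clock, returns in `Z`. -/
theorem fc_clock_on [FiniteDimensional ℝ E] [T2Space W] [CompactSpace W]
    [IsManifold I ∞ W] [I.Boundaryless] {r : ℕ∞} (F : W ≃ₘ^r⟮I, I⟯ W) (ψ : ℝ → W → W)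
    (Θ : W → Circle) (hψ0 : ∀ q, ψ 0 q = q) (hψ : ∀ u v q, ψ (u + v) q = ψ u (ψ v q))
    (hψC : ContMDiff (𝓘(ℝ, ℝ).prod I) I r (fun z : ℝ × W => ψ z.1 z.2))
    (hΘ : ContMDiff I (𝓡 1) r Θ)
    (hΘψ : ∀ u q, Θ (ψ u q) = Circle.exp (2 * Real.pi * u) * Θ q)
    (hFψ : ∀ u q, F (ψ u q) = ψ u (F q)) (hΘF : ∀ q, Θ (F q) = Θ q)
    (Z : Set W) (hZ : ∀ u, ∀ q ∈ Z, ψ u q ∈ Z)
    (p : W) (k : ℕ) (hk : ClockReturnsOn Z F ψ p k) : FC I p F := by
  refine FcOn_one F ψ (fun q => (Θ p)⁻¹ * Θ q) hψ0 hψ hψC (contMDiff_const.mul hΘ) ?_ hFψ ?_ Z hZ p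
    (inv_mul_cancel _) k hk
  · intro u q
    rw [hΘψ, mul_left_comm]
  · intro q
    rw [hΘF]

end Pool.Agent.SC
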