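import Pool.Agent.Lib.MP_1e8d1a_an.SU.Act
import Pool.Agent.Lib.MP_1e8d1a_an.SU.FcOn
import Pool.Agent.Lib.MP_1e8d1a_an.SC.RotC

/-!
The `C^r` closing lemma for diffeomorphisms commuting with a flow with a clock, at points with
nontrivial stabiliser.
-/

open scoped ContDiff Manifold Topology

namespace Pool.Agent.SC

theorem act_iter {W : Type} {ψ : ℝ → W → W} {e : Equiv.Perm W}
    (hadd : ∀ u v q, ψ (u + v) q = ψ u (ψ v q)) (he : ∀ u q, e (ψ u q) = ψ u (e q))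
    {G : W → W} {c : ℝ} (hG : ∀ q, G q = ψ c (e q)) (i : ℕ) (v : ℝ) (q : W) :
    G^[i] (ψ v q) = ψ (i * c + v) ((e ^ i) q) := by
  induction i with
  | zero => simp
  | succ i ih =>
    rw [Function.iterate_succ_apply', ih, hG, he, ← hadd, pow_succ', Equiv.Perm.mul_apply]
    congr 1
    push_cast
    ring

/-- separated clocks -/
theorem clock_sep {W : Type} {Θ : W → Circle} {p q z : W} {Q : ℕ} {c : ℝ} {a : ℤ}
    (hc : ∀ a : ℤ, ¬ (Q : ℤ) ∣ a → 2 * c ≤ ‖((rtc a Q : Circle) : ℂ) - 1‖)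
    (ha : ¬ (Q : ℤ) ∣ a) (hz : Θ z = rtc a Q * Θ q) (hq : ‖((Θ q : Circle) : ℂ) - Θ p‖ < c)
    (hq' : ‖((Θ z : Circle) : ℂ) - Θ p‖ < c) : False := by
  rw [hz] at hq'
  have h1 := hc _ ha
  have h2 : ((rtc a Q : ℂ) - 1) * (Θ q : ℂ) =
        (((rtc a Q * Θ q : Circle) : ℂ) - Θ p) - ((Θ q : ℂ) - Θ p) := by
    rw [Circle.coe_mul]
    ring
  have h3 : ‖((rtc a Q : ℂ) - 1) * (Θ q : ℂ)‖ = ‖(rtc a Q : ℂ) - 1‖ := by
    rw [norm_mul, Circle.norm_coe, mul_one]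
  have h4 : ‖((rtc a Q : ℂ) - 1) * (Θ q : ℂ)‖ ≤
      ‖((rtc a Q * Θ q : Circle) : ℂ) - Θ p‖ + ‖(Θ q : ℂ) - Θ p‖ := by
    rw [h2]
    exact norm_sub_le _ _
  rw [h3] at h4
  linarith

variable {E : Type} [NormedAddCommGroup E] [NormedSpace ℝ E] [FiniteDimensional ℝ E]
  {H : Type} [TopologicalSpace H] {I : ModelWithCorners ℝ E H} [I.Boundaryless]
  {W : Type} [TopologicalSpace W] [T2Space W] [CompactSpace W] [ChartedSpace H W]
  [IsManifold I ∞ W]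

/-- The rational stage. -/
theorem fc_act_rational {r : ℕ∞} {ψ : ℝ → W → W} {Θ : W → Circle} (hψ : IsFlow I r ψ)
    (hΘ : IsClock I r ψ Θ) (e : Equiv.Perm W) (he : ∀ u q, e (ψ u q) = ψ u (e q)) {σ : ℝ}
    (heΘ : ∀ q, Θ (e q) = Circle.exp (2 * Real.pi * σ) * Θ q) (p : W) {u : ℝ} {n m₀ : ℤ}
    (hm₀ : (m₀ : ℝ) = u + n * σ) (P : ℤ) (Q : ℕ) (hQ : 0 < Q) (hD : (Q : ℤ) * m₀ - n * P ≠ 0)
    (hp : ∀ U ∈ 𝓝 p, ∀ N : ℝ, ∃ m j : ℤ, N ≤ |(m₀ : ℝ) * j - n * m| ∧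
      ∃ q ∈ U, ψ u ((e ^ n) q) = q ∧ ψ (m - j * σ) ((e ^ j) q) ∈ U)
    (G : W ≃ₘ^r⟮I, I⟯ W) (hG : ∀ q, G q = ψ ((P : ℝ) / Q - σ) (e q)) : FC I p G := by
  have h0 := hψ.1
  have hadd := hψ.2.1
  have hQ' : (Q : ℝ) ≠ 0 := by exact_mod_cast hQ.ne'
  -- the returns with `k` turns
  obtain ⟨R, hRdef⟩ : ∃ R : ℕ → Set W → ℕ → Prop, R = fun (k : ℕ) (U : Set W) (N : ℕ) =>
      ∃ n' : ℕ, N ≤ n' ∧ ∃ m : ℤ, (Q : ℤ) * m - n' * P = (k : ℤ) ∧ ∃ q ∈ U, ψ u ((e ^ n) q) = q ∧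
        ψ (m - n' * σ) ((e ^ n') q) ∈ U := ⟨_, rfl⟩
  have hmono : ∀ k U U' N N', R k U N → U ⊆ U' → N' ≤ N → R k U' N' := by
    intro k U U' N N' h hU hN
    rw [hRdef] at h ⊢
    obtain ⟨n', hn', m, hm, q, hq, hqZ, hq'⟩ := h
    exact ⟨n', hN.trans hn', m, hm, q, hU hq, hqZ, hU hq'⟩
  obtain ⟨k₁, hk₁, hR₁⟩ := nhds_pigeon (p := p) (Finset.Icc 1 ((Q : ℤ) * m₀ - n * P).natAbs) R hmono
    (fun U hU N => by
      rw [hRdef]
      exact act_returns h0 hadd he hm₀ P Q hQ hD hp U hU N)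
  classical
  have hex : ∃ k, 1 ≤ k ∧ ∀ U ∈ 𝓝 p, ∀ N, R k U N := ⟨k₁, (Finset.mem_Icc.1 hk₁).1, hR₁⟩
  obtain ⟨k, hkdef⟩ : ∃ k, k = Nat.find hex := ⟨_, rfl⟩
  obtain ⟨hk1, hkR⟩ : 1 ≤ k ∧ ∀ U ∈ 𝓝 p, ∀ N, R k U N := by
    rw [hkdef]
    exact Nat.find_spec hex
  have hkmin : ∀ l, 1 ≤ l → l < k → ∃ U ∈ 𝓝 p, ∃ N, ¬ R l U N := by
    intro l hl1 hlk
    rw [hkdef] at hlk
    have := Nat.find_min hex hlk
    push Not at this
    exact this hl1
  obtain ⟨U₁, hU₁, N₁, hno⟩ : ∃ U₁ ∈ 𝓝 p, ∃ N₁ : ℕ, ∀ l, 1 ≤ l → l < k → ¬ R l U₁ N₁ := by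
    have h1 : ∀ l, ∃ U ∈ 𝓝 p, ∃ N, 1 ≤ l → l < k → ¬ R l U N := by
      intro l
      by_cases hl : 1 ≤ l ∧ l < k
      · obtain ⟨U, hU, N, hN⟩ := hkmin l hl.1 hl.2
        exact ⟨U, hU, N, fun _ _ => hN⟩
      · exact ⟨Set.univ, Filter.univ_mem, 0, fun h h' => absurd ⟨h, h'⟩ hl⟩
    choose V hV N hN using h1
    refine ⟨⋂ l ∈ Finset.range k, V l, (Filter.biInter_finset_mem _).2 fun l _ => hV l,
      (Finset.range k).sup N, fun l hl1 hlk hR => ?_⟩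
    have hl : l ∈ Finset.range k := Finset.mem_range.2 hlk
    exact hN l hl1 hlk (hmono l _ _ _ _ hR (fun q hq => Set.mem_iInter₂.1 hq l hl)
      (Finset.le_sup (f := N) hl))
  have hiter : ∀ (i l : ℕ) (q : W), (G : W → W)^[i] (ψ ((l : ℝ) / Q) q) =
      ψ (((i * P + l : ℤ) : ℝ) / Q - i * σ) ((e ^ i) q) := by
    intro i l q
    rw [act_iter hadd he hG]
    congr 1
    push_cast
    field_simp
    ring
  refine fc_clock_on G (fun u q => ψ (u / Q) q) (fun q => Θ q ^ Q) ?_ ?_ ?_ ?_ ?_ ?_ ?_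
    {q | ψ u ((e ^ n) q) = q} ?_ p k ?_
  · intro q
    simp [h0]
  · intro u v q
    rw [← hadd]
    congr 1
    ring
  · have h1 := susp_smooth hψ (1 / Q) 0
    have h2 : (fun z : ℝ × W => ψ (z.1 / Q) z.2) = fun z : ℝ × W => ψ (1 / Q * z.1 + 0) z.2 := by
      funext z
      congr 1
      ring
    rw [h2]
    exact h1
  · exact hΘ.1.pow Q
  · intro u q
    rw [hΘ.2, mul_pow, ← Circle.exp_natCast_mul]
    congr 2
    field_simp
  · intro u q
    rw [hG, hG, he, ← hadd, ← hadd]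
    congr 1
    ring
  · intro q
    rw [hG, hΘ.2, heΘ, ← mul_assoc, ← Circle.exp_add, mul_pow, ← Circle.exp_natCast_mul]
    have e1 : (Q : ℝ) * (2 * Real.pi * ((P : ℝ) / Q - σ) + 2 * Real.pi * σ) =
        2 * Real.pi * (P : ℝ) := by
      field_simp
      ring
    rw [e1, Circle.exp_two_pi_mul_int, one_mul]
  · intro v q hq
    have h1 := act_mem h0 hadd he hq (v / Q) 0
    simpa using h1
  · obtain ⟨c, hc, hcl⟩ := rtc_lower hQ
    refine ⟨hk1, U₁ ∩ {q | ‖((Θ q : Circle) : ℂ) - Θ p‖ < c}, ?_, ?_⟩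
    · refine Filter.inter_mem hU₁ (IsOpen.mem_nhds ?_ ?_)
      · refine isOpen_lt ?_ continuous_const
        exact ((continuous_subtype_val.comp hΘ.1.continuous).sub continuous_const).norm
      · simpa using hc
    · intro U hU N
      have hR := hkR U hU (max N (k * N₁) + 1)
      rw [hRdef] at hR
      obtain ⟨n', hn', m, hm, q, hq, hqZ, hq'⟩ := hR
      have hn1 : N ≤ n' := by
        have := le_max_left N (k * N₁)
        omega
      have hn2 : k * N₁ ≤ n' := by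
        have := le_max_right N (k * N₁)
        omega
      refine ⟨n', hn1, by omega, ⟨q, hq, hqZ, ?_⟩, ?_⟩
      · rw [hiter]
        have e1 : (n' : ℤ) * P + k = Q * m := by linarith
        have e2 : (((n' : ℤ) * P + k : ℤ) : ℝ) / Q = m := by
          rw [e1]
          push_cast
          field_simp
        rw [e2]
        exact hq'
      · intro i l hi hin hl hlk hil z hz hzZ hz'
        rw [hiter] at hz'
        by_cases hd : (Q : ℤ) ∣ i * P + l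
        · obtain ⟨m', hm'⟩ := hd
          apply hno l hl hlk
          rw [hRdef]
          refine ⟨i, ?_, m', by linarith, z, hz.1, hzZ, ?_⟩
          · have h1 : k * N₁ ≤ k * i := by
              calc k * N₁ ≤ n' := hn2
                _ ≤ l * n' := Nat.le_mul_of_pos_left n' hl
                _ = k * i := by rw [← hil, mul_comm]
            exact Nat.le_of_mul_le_mul_left h1 hk1
          · have e2 : (((i : ℤ) * P + l : ℤ) : ℝ) / Q = m' := by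
              rw [hm']
              push_cast
              field_simp
            rw [e2] at hz'
            exact hz'.1
        · refine clock_sep hcl hd (z := ψ (((i * P + l : ℤ) : ℝ) / Q - i * σ) ((e ^ i) z)) ?_
            hz.2 hz'.2
          have h1 := act_clock hΘ.2 heΘ (((i * P + l : ℤ) : ℝ) / Q - i * σ) (i : ℤ) z
          rw [zpow_natCast] at h1
          rw [h1, rtc]
          congr 3
          push_cast
          ring

/-- rational numbers near `σ` away from one value -/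
theorem exists_good_rat (σ ε : ℝ) (hε : 0 < ε) (m₀ n : ℤ) (h : m₀ ≠ 0 ∨ n ≠ 0) :
    ∃ (P : ℤ) (Q : ℕ), 0 < Q ∧ |(P : ℝ) / Q - σ| < ε ∧ (Q : ℤ) * m₀ - n * P ≠ 0 := by
  have key : ∀ a : ℚ, σ < a → (a : ℝ) < σ + ε → (m₀ : ℚ) - n * a ≠ 0 →
      ∃ (P : ℤ) (Q : ℕ), 0 < Q ∧ |(P : ℝ) / Q - σ| < ε ∧ (Q : ℤ) * m₀ - n * P ≠ 0 := by
    intro a h1 h2 h3
    refine ⟨a.num, a.den, a.den_pos, ?_, ?_⟩
    · have e1 : (a.num : ℝ) / (a.den : ℝ) = a := by
        rw [Rat.cast_def]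
      rw [e1, abs_of_pos (by linarith)]
      linarith
    · intro h4
      apply h3
      have h5 : (a.den : ℚ) ≠ 0 := by exact_mod_cast a.den_pos.ne'
      have h6 : (a.den : ℚ) * m₀ - n * a.num = 0 := by exact_mod_cast h4
      have h7 : (a.num : ℚ) = a * a.den := (Rat.mul_den_eq_num a).symm
      rw [h7] at h6
      apply mul_left_cancel₀ h5
      rw [mul_zero, ← h6]
      ring
  obtain ⟨a, ha1, ha2⟩ := exists_rat_btwn (show σ < σ + ε by linarith)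
  obtain ⟨b, hb1, hb2⟩ := exists_rat_btwn ha1
  by_cases ha : (m₀ : ℚ) - n * a ≠ 0
  · exact key a ha1 ha2 ha
  · push Not at ha
    refine key b hb1 (hb2.trans ha2) ?_
    intro hb
    have h1 : (n : ℚ) * (a - b) = 0 := by linarith
    rcases mul_eq_zero.1 h1 with h2 | h2
    · have h3 : (m₀ : ℚ) = 0 := by
        rw [h2] at ha
        linarith
      rcases h with h | h
      · exact h (by exact_mod_cast h3)
      · exact h (by exact_mod_cast h2)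
    · have h3 : (b : ℝ) < a := hb2
      have h4 : b < a := by exact_mod_cast h3
      linarith

/-- **Closing lemma** for a diffeomorphism commuting with a flow with a clock. -/
theorem fc_act {r : ℕ∞} {ψ : ℝ → W → W} {Θ : W → Circle} (hψ : IsFlow I r ψ)
    (hΘ : IsClock I r ψ Θ) (F : W ≃ₘ^r⟮I, I⟯ W) (hFψ : ∀ u q, F (ψ u q) = ψ u (F q)) (ζ : Circle)
    (hFΘ : ∀ q, Θ (F q) = ζ * Θ q) (p : W) (hp : StabReturns ψ F.toEquiv p) :
    FC I p F := by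
  obtain ⟨u, n, hun, hp⟩ := hp
  obtain ⟨σ, hσ⟩ : ∃ σ : ℝ, Circle.exp (2 * Real.pi * σ) = ζ := by
    refine ⟨Complex.arg (ζ : ℂ) / (2 * Real.pi), ?_⟩
    have e1 : 2 * Real.pi * (Complex.arg (ζ : ℂ) / (2 * Real.pi)) = Complex.arg (ζ : ℂ) := by
      field_simp
    rw [e1, Circle.exp_arg]
  have h0 := hψ.1
  have hadd := hψ.2.1
  have he : ∀ u q, F.toEquiv (ψ u q) = ψ u (F.toEquiv q) := hFψ
  have heΘ : ∀ q, Θ (F.toEquiv q) = Circle.exp (2 * Real.pi * σ) * Θ q := by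
    intro q
    rw [hσ]
    exact hFΘ q
  obtain ⟨m₀, hm₀⟩ : ∃ m₀ : ℤ, (m₀ : ℝ) = u + n * σ := by
    obtain ⟨s, j, -, q, -, hq, -⟩ := hp Set.univ Filter.univ_mem 0
    have h1 := act_clock hΘ.2 heΘ u n q
    rw [hq] at h1
    have h2 : Circle.exp (2 * Real.pi * (u + n * σ)) = 1 := (mul_eq_right.1 h1.symm)
    obtain ⟨m, hm⟩ := Circle.exp_eq_one.1 h2
    refine ⟨m, ?_⟩
    have hpi : (0 : ℝ) < 2 * Real.pi := by positivity
    have h3 : 2 * Real.pi * (u + n * σ) = 2 * Real.pi * m := by rw [hm]; ring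
    exact (mul_left_cancel₀ hpi.ne' h3).symm
  have hmn : m₀ ≠ 0 ∨ n ≠ 0 := by
    by_cases hn : n = 0
    · left
      rintro rfl
      rw [hn] at hm₀
      simp only [Int.cast_zero, zero_mul, add_zero] at hm₀
      rcases hun with h | h
      · exact h hm₀.symm
      · exact h hn
    · exact Or.inr hn
  have hret := int_returns h0 hadd hψ.2.2.continuous hΘ.1.continuous hΘ.2 heΘ hm₀ hp
  refine fc_of_limit (P := ℝ) (fun z : ℝ × W => F (ψ (1 * z.1 + 0) z.2)) ?_ F ?_ p ?_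
  · intro q
    exact (F.contMDiff.comp (susp_smooth hψ 1 0)).contMDiffAt
  · intro q
    simp [h0]
  · intro ε hε
    obtain ⟨P, Q, hQ, hPQ, hD⟩ := exists_good_rat σ ε hε m₀ n hmn
    refine ⟨(P : ℝ) / Q - σ, by rwa [Real.norm_eq_abs],
      (suspDiffeo hψ (1 * ((P : ℝ) / Q - σ) + 0)).trans F, fun q => rfl, ?_⟩
    refine fc_act_rational hψ hΘ F.toEquiv he heΘ p hm₀ P Q hQ hD hret _ ?_
    intro q
    change F (ψ (1 * ((P : ℝ) / Q - σ) + 0) q) = ψ _ (F q)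
    rw [hFψ]
    congr 1
    ring

end Pool.Agent.SC
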