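import Pool.Agent.Lib.MP_1e8d1a_an.SU.Cor
import Pool.Agent.Lib.MP_1e8d1a_an.SU.FcAct
import Pool.Agent.Lib.MP_1e8d1a_an.HM.Pairs

/-! The theorem for clock points and their limits. -/

open scoped ContDiff Manifold Topology

namespace Pool.Agent.SC

variable {E : Type} [NormedAddCommGroup E] [NormedSpace ℝ E] [FiniteDimensional ℝ E]
  {H : Type} [TopologicalSpace H] {I : ModelWithCorners ℝ E H} [I.Boundaryless]
  {W : Type} [TopologicalSpace W] [T2Space W] [CompactSpace W] [ChartedSpace H W]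
  [IsManifold I ∞ W]

theorem ClockPoint.fc {r : ℕ∞} {F : W ≃ₘ^r⟮I, I⟯ W} {p : W} (h : ClockPoint I r F p) :
    FC I p F := by
  obtain ⟨ψ, Θ, ζ, h1, h2, h3, h4, h5⟩ := h
  exact fc_act h1 h2 F h3 ζ h4 p h5

theorem clock_limit {r : ℕ∞} (F : W ≃ₘ^r⟮I, I⟯ W) (p : W)
    (h : ∀ U ∈ @nhds _ (crTopology I r) F, ∀ V ∈ 𝓝 p, ∃ G ∈ U, ∃ q ∈ V, ClockPoint I r G q) :
    Closable I F p := by
  refine closable_of_pairs F p fun U hU V hV => ?_
  obtain ⟨G, hG, q, hq, hGq⟩ := h U hU V hV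
  exact ⟨G, hG, q, hq, hGq.fc.closable⟩

end Pool.Agent.SC
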