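import Pool.Agent.Lib.MP_1e8d1a_an.SU.Stmt
import Pool.Agent.Lib.MP_1e8d1a_an.SU.Fin0
import Pool.Agent.Lib.MP_1e8d1a_an.SB.Main
import Pool.Agent.Lib.MP_1e8d1a_an.HM.Final

/-! The final theorem. -/

open scoped ContDiff Manifold Topology

namespace Pool.Agent.SC

variable {E : Type} [NormedAddCommGroup E] [NormedSpace ℝ E] [FiniteDimensional ℝ E]
  {H : Type} [TopologicalSpace H] {I : ModelWithCorners ℝ E H} [I.Boundaryless]
  {M : Type} [TopologicalSpace M] [T2Space M] [CompactSpace M] [ChartedSpace H M]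
  [IsManifold I ∞ M]
  {E' : Type} [NormedAddCommGroup E'] [NormedSpace ℝ E'] [FiniteDimensional ℝ E']
  {H' : Type} [TopologicalSpace H'] {J : ModelWithCorners ℝ E' H'} [J.Boundaryless]
  {N : Type} [TopologicalSpace N] [T2Space N] [CompactSpace N] [ChartedSpace H' N]
  [IsManifold J ∞ N]

theorem Carried.fc {r : ℕ∞} (hr : 1 ≤ r) {F : M ≃ₘ^r⟮I, I⟯ M} {p : M}
    (h : Carried I r (F : M → M) p) : FC I p F := by
  obtain ⟨E₁, H₁, I₁, S, γ, m, F₁, z, hγ, hF, hz⟩ := h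
  exact fc_of_periodicOn hr γ hγ m hz.fc F hF

theorem closable_limitOfCarried {r : ℕ∞} (hr : 1 ≤ r) (F : M ≃ₘ^r⟮I, I⟯ M) (p : M)
    (h : LimitOfCarried I r F p) : Closable I F p := by
  refine closable_of_pairs F p fun U hU V hV => ?_
  obtain ⟨G, hG, q, hq, h1⟩ := h U hU V hV
  exact ⟨G, hG, q, hq, (h1.fc hr).closable⟩

theorem prodClosable_clocked {r : ℕ∞} (hr : 1 ≤ r) (f : M ≃ₘ^r⟮I, I⟯ M) (x : M)
    (g : N ≃ₘ^r⟮J, J⟯ N) (w : N) (h : LimitOfClocked J r f x g w) :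
    ProdClosable I J r f g x w := by
  refine HM.prodClosable_of_limit f x g w fun U hU V hV => ?_
  obtain ⟨g', hg', w', hw', h1⟩ := h U hU V hV
  refine ⟨g', hg', w', hw', ?_⟩
  intro F hF
  rcases h1 with ⟨hx, ψ, T, t, h2, h3, h4, h5, h6⟩ | ⟨h2, m, hm, hx, h3⟩
  · exact (fc_orbit hr f x g' w' ψ T t h2 h3 h4 h5 hx h6 F hF).closable
  · exact closable_periodicNear h2 f x g' w' ⟨m, hm, hx, h3⟩ F hF

theorem closable_time {r : ℕ∞} {ψ : ℝ → M → M} {Θ : M → Circle} (hψ : IsFlow I r ψ)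
    (hΘ : IsClock I r ψ Θ) (τ : ℝ) (F : M ≃ₘ^r⟮I, I⟯ M) (hF : ∀ q, F q = ψ τ q) (p : M)
    (hp : FlowNonwandering ψ p) : Closable I F p :=
  (clockPoint_time hψ hΘ τ F hF p hp).fc.closable

end Pool.Agent.SC
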