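import Pool.Agent.Lib.MP_1e8d1a_an.SC.Defs3

/-! Smoothness of flow maps. -/

open scoped ContDiff Manifold Topology

namespace Pool.Agent.SC

variable {E : Type} [NormedAddCommGroup E] [NormedSpace ℝ E] 
  {H : Type} [TopologicalSpace H] {I : ModelWithCorners ℝ E H}
  {W : Type} [TopologicalSpace W] [ChartedSpace H W]

/-- smoothness of `(t, q) ↦ ψ (a t + b) q` -/
theorem susp_smooth {r : ℕ∞} {ψ : ℝ → W → W} (hψ : IsFlow I r ψ) (a b : ℝ) :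
    ContMDiff (𝓘(ℝ, ℝ).prod I) I r (fun z : ℝ × W => ψ (a * z.1 + b) z.2) := by
  have h1 : ContMDiff 𝓘(ℝ, ℝ) 𝓘(ℝ, ℝ) r (fun t : ℝ => a * t + b) :=
    ((contDiff_const.mul contDiff_id).add contDiff_const).contMDiff
  have h2 : ContMDiff (𝓘(ℝ, ℝ).prod I) (𝓘(ℝ, ℝ).prod I) r
      (fun z : ℝ × W => ((a * z.1 + b, z.2) : ℝ × W)) :=
    (h1.comp contMDiff_fst).prodMk contMDiff_snd
  exact hψ.2.2.comp h2

theorem susp_smooth' {r : ℕ∞} {ψ : ℝ → W → W} (hψ : IsFlow I r ψ) (b : ℝ) :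
    ContMDiff I I r (ψ b) := by
  have h2 : ContMDiff I (𝓘(ℝ, ℝ).prod I) r (fun q : W => ((b, q) : ℝ × W)) :=
    contMDiff_const.prodMk contMDiff_id
  exact hψ.2.2.comp h2

/-- the time-`c` map -/
noncomputable def suspDiffeo {r : ℕ∞} {ψ : ℝ → W → W} (hψ : IsFlow I r ψ) (c : ℝ) :
    W ≃ₘ^r⟮I, I⟯ W where
  toFun := ψ c
  invFun := ψ (-c)
  left_inv q := by rw [← hψ.2.1, neg_add_cancel, hψ.1]
  right_inv q := by rw [← hψ.2.1, add_neg_cancel, hψ.1]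
  contMDiff_toFun := susp_smooth' hψ c
  contMDiff_invFun := susp_smooth' hψ (-c)

end Pool.Agent.SC
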