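import Pool.Agent.Lib.MP_1e8d1a_an.SU.Defs
import Pool.Agent.Lib.MP_1e8d1a_an.SB.Defs
import Pool.Agent.Lib.MP_1e8d1a_an.IR.Defs

/-! Definitions used in the statement of the final theorem. -/

open scoped ContDiff Manifold Topology

namespace Pool.Agent.SC

/-- `p` is nonwandering for the flow `ψ`: it has near returns at arbitrarily large times. -/
def FlowNonwandering {W : Type} [TopologicalSpace W] (ψ : ℝ → W → W) (p : W) : Prop :=
  ∀ U ∈ 𝓝 p, ∀ T₀ : ℝ, ∃ T ≥ T₀, ∃ q ∈ U, ψ T q ∈ U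

/-- **Carried points.**  `γ : S → W` is a `C^r` embedding of a compact manifold `S` without boundary
(of any dimension), its image is periodic for `F` with period `m`, `F^m ∘ γ = γ ∘ F₁`, and `z` is a
clock point of `F₁`; then `γ z` is a carried point of `F`. -/
inductive Carried {E : Type} [NormedAddCommGroup E] [NormedSpace ℝ E] {H : Type}
    [TopologicalSpace H] (I : ModelWithCorners ℝ E H) {W : Type} [TopologicalSpace W]
    [ChartedSpace H W] (r : ℕ∞) (F : W → W) : W → Prop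
  | mk (E₁ : Type) [NormedAddCommGroup E₁] [NormedSpace ℝ E₁] [FiniteDimensional ℝ E₁]
      (H₁ : Type) [TopologicalSpace H₁] (I₁ : ModelWithCorners ℝ E₁ H₁) [I₁.Boundaryless]
      (S : Type) [TopologicalSpace S] [T2Space S] [CompactSpace S] [ChartedSpace H₁ S]
      [IsManifold I₁ ∞ S] (γ : S → W) (m : ℕ) (F₁ : S ≃ₘ^r⟮I₁, I₁⟯ S) (z : S)
      (hγ : CrEmbedding I₁ I r γ) (hF : PeriodicOn F m γ F₁) (hz : ClockPoint I₁ r F₁ z) :
      Carried I r F (γ z)

/-- `(F, p)` is a limit, in `Diff^r(W) × W`, of pairs `(G, q)` with `q` a carried point of `G`. -/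
def LimitOfCarried {E : Type} [NormedAddCommGroup E] [NormedSpace ℝ E] {H : Type}
    [TopologicalSpace H] (I : ModelWithCorners ℝ E H) {W : Type} [TopologicalSpace W]
    [ChartedSpace H W] (r : ℕ∞) (F : W ≃ₘ^r⟮I, I⟯ W) (p : W) : Prop :=
  ∀ U ∈ @nhds _ (crTopology I r) F, ∀ V ∈ 𝓝 p, ∃ G ∈ U, ∃ q ∈ V, Carried I r G q

/-- `w` is on a closed orbit, not a point, of a flow `ψ` of class `C^r` of `N`, and `g = ψ_t` on this
orbit. -/
def OnClosedOrbit {E' : Type} [NormedAddCommGroup E'] [NormedSpace ℝ E'] {H' : Type}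
    [TopologicalSpace H'] (J : ModelWithCorners ℝ E' H') {N : Type} [TopologicalSpace N]
    [ChartedSpace H' N] (r : ℕ∞) (g : N → N) (w : N) : Prop :=
  ∃ (ψ : ℝ → N → N) (T t : ℝ), IsFlow J r ψ ∧ T ≠ 0 ∧ ψ T w = w ∧ (∃ u, ψ u w ≠ w) ∧
    ∀ u, g (ψ u w) = ψ (u + t) w

/-- `(g, w)` is a limit, in `Diff^r(N) × N`, of pairs `(g', w')` such that `x` is nonwandering for
`f` and `w'` is on a closed orbit as in `OnClosedOrbit`, or `dim N ≥ 2` and `g'^m = id` near `w'`,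
`m > 0`, with `x` nonwandering for `f^m`. -/
def LimitOfClocked {E' : Type} [NormedAddCommGroup E'] [NormedSpace ℝ E'] {H' : Type}
    [TopologicalSpace H'] (J : ModelWithCorners ℝ E' H') {N : Type} [TopologicalSpace N]
    [ChartedSpace H' N] (r : ℕ∞) {M : Type} [TopologicalSpace M] (f : M → M) (x : M)
    (g : N ≃ₘ^r⟮J, J⟯ N) (w : N) : Prop :=
  ∀ U ∈ @nhds _ (crTopology J r) g, ∀ V ∈ 𝓝 w, ∃ g' ∈ U, ∃ w' ∈ V,
    (NonwanderingPt f x ∧ OnClosedOrbit J r g' w') ∨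
    (2 ≤ Module.finrank ℝ E' ∧ ∃ m : ℕ, 0 < m ∧ NonwanderingPt f^[m] x ∧
      ∀ᶠ z in 𝓝 w', g'^[m] z = z)

end Pool.Agent.SC
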